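import Mathlib

open Filter Finset

namespace Pool.Agent.Results.MP_376bf0_nt.NonConvergence

/-- The iterated remainder sets `S_j(n)`: `S_0(n) = {1, …, ⌊n/2⌋}` and
`S_{j+1}(n) = { n mod k : k ∈ S_j(n), k ≠ 0 }`. -/
def S (n : ℕ) : ℕ → Finset ℕ
  | 0 => Finset.Icc 1 (n / 2)
  | (j + 1) => ((S n j).erase 0).image (fun k => n % k)

/-! ### Chains of quotients -/

/-- `Adm l x`: the chain of quotients `l = [q_j, …, q_1]` is admissible at the relative
position `x = r / n`. -/
def Adm : List ℕ → ℝ → Prop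
  | [], x => 0 < x ∧ x ≤ 1 / 2
  | (q :: l), x => 0 < q ∧ ((q : ℝ) + 1) * x < 1 ∧ Adm l ((1 - x) / q)

/-- The residue coefficient of a chain. -/
def cc : List ℕ → ℤ
  | [] => 0
  | (q :: l) => 1 - q * cc l

/-- The thresholds of a chain. -/
noncomputable def thr : List ℕ → Finset ℝ
  | [] => {0, 1 / 2}
  | (q :: l) => insert (1 / ((q : ℝ) + 1)) ((thr l).image (fun θ => 1 - q * θ))

theorem adm_pos_le {l : List ℕ} : ∀ {x : ℝ}, Adm l x → x ≤ 1 / 2 := by
  cases l with
  | nil => intro x h; exact h.2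
  | cons q l =>
    intro x h
    obtain ⟨hq, h1, h2⟩ := h
    have hq' : (1 : ℝ) ≤ q := by exact_mod_cast hq
    by_contra hx
    push Not at hx
    nlinarith

theorem adm_le (l : List ℕ) : ∀ x : ℝ, Adm l x → x * (l.length + 2) ≤ 1 := by
  induction l with
  | nil => intro x h; have := h.2; simp; linarith
  | cons q l ih =>
    intro x h
    have hx := adm_pos_le h
    obtain ⟨hq, h1, h2⟩ := h
    have hq' : (1 : ℝ) ≤ q := by exact_mod_cast hq
    have h3 := ih _ h2
    have hq0 : (0 : ℝ) < q := by linarith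
    rw [div_mul_eq_mul_div, div_le_one hq0] at h3
    -- (1 - x) * (m + 2) ≤ q, q * x < 1 - x
    by_cases hx0 : x ≤ 0
    · have : (0 : ℝ) ≤ ((q :: l).length : ℝ) + 2 := by positivity
      nlinarith
    · push Not at hx0
      have h5 : (1 - x) * (x * ((l.length : ℝ) + 2) - 1) < 0 := by nlinarith
      have h6 : x * ((l.length : ℝ) + 2) - 1 < 0 := by
        by_contra hcon
        push Not at hcon
        nlinarith
      have h7 : ((l.length : ℝ) + 1) < q := by nlinarith
      have h8 : l.length + 1 < q := by exact_mod_cast h7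
      have h9 : ((l.length : ℝ) + 2) ≤ q := by exact_mod_cast h8
      simp only [List.length_cons]
      push_cast
      nlinarith

/-- the head of an admissible chain is at least its length plus one. -/
theorem adm_head (q : ℕ) (l : List ℕ) (x : ℝ) (h : Adm (q :: l) x) (hx0 : 0 < x) :
    l.length + 2 ≤ q := by
  have hx := adm_pos_le h
  obtain ⟨hq, h1, h2⟩ := h
  have hq' : (1 : ℝ) ≤ q := by exact_mod_cast hq
  have h3 := adm_le l _ h2
  have hq0 : (0 : ℝ) < q := by linarith
  rw [div_mul_eq_mul_div, div_le_one hq0] at h3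
  have h5 : (1 - x) * (x * ((l.length : ℝ) + 2) - 1) < 0 := by nlinarith
  have h6 : x * ((l.length : ℝ) + 2) - 1 < 0 := by
    by_contra hcon
    push Not at hcon
    nlinarith
  have h7 : ((l.length : ℝ) + 1) < q := by nlinarith
  have h8 : l.length + 1 < q := by exact_mod_cast h7
  omega

theorem adm_tail_gt {q : ℕ} {l : List ℕ} {x : ℝ} (h : Adm (q :: l) x) :
    1 / ((q : ℝ) + 1) < (1 - x) / q ∧ x < (1 - x) / q := by
  obtain ⟨hq, h1, h2⟩ := h
  have hq0 : (0 : ℝ) < q := by exact_mod_cast hq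
  have hx : x < 1 / ((q : ℝ) + 1) := by
    rw [lt_div_iff₀ (by positivity)]; linarith
  have key : 1 / ((q : ℝ) + 1) < (1 - x) / q := by
    rw [lt_div_iff₀ hq0]
    have : 1 / ((q : ℝ) + 1) * q = 1 - 1 / ((q : ℝ) + 1) := by field_simp; ring
    rw [this]; linarith
  exact ⟨key, hx.trans key⟩

theorem adm_entries (l : List ℕ) : ∀ (x ε : ℝ), 0 < ε → ε ≤ x → Adm l x →
    ∀ q ∈ l, 0 < q ∧ (q : ℝ) < 1 / ε := by
  induction l with
  | nil => intro x ε _ _ _ q hq; simp at hq
  | cons q l ih =>
    intro x ε hε hx h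
    have ht := (adm_tail_gt h).2
    have h' := h
    obtain ⟨hq, h1, h2⟩ := h
    intro p hp
    rcases List.mem_cons.1 hp with rfl | hp
    · refine ⟨hq, ?_⟩
      rw [lt_div_iff₀ hε]
      have : (0 : ℝ) < p := by exact_mod_cast hq
      nlinarith
    · exact ih _ ε hε (hx.trans ht.le) h2 p hp

/-- Every chain that is admissible at `x ≥ 1/(j+4)`, `j ≥ 2` its length, has an even entry. -/
theorem adm_even (l : List ℕ) : 2 ≤ l.length → ∀ x : ℝ, Adm l x →
    1 ≤ x * (l.length + 4) → 2 ∣ l.prod := by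
  induction l with
  | nil => intro h; simp at h
  | cons q l ih =>
    intro hlen x h hx
    have hlen0 : (0 : ℝ) < ((q :: l).length : ℝ) + 4 := by positivity
    have hx0 : 0 < x := by
      by_contra hcon
      push Not at hcon
      nlinarith
    have hhead := adm_head q l x h hx0
    have htail := (adm_tail_gt h).1
    obtain ⟨hq, h1, h2⟩ := h
    have hq0 : (0 : ℝ) < q := by exact_mod_cast hq
    have hup : q ≤ l.length + 3 := by
      have h3 : ((q : ℝ) + 1) < ((q :: l).length : ℝ) + 4 := by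
        by_contra hcon
        push Not at hcon
        nlinarith
      simp only [List.length_cons] at h3
      push_cast at h3
      have h4 : (q : ℝ) < l.length + 4 := by linarith
      have h5 : q < l.length + 4 := by exact_mod_cast h4
      omega
    have hup' : (q : ℝ) ≤ l.length + 3 := by exact_mod_cast hup
    rw [List.prod_cons]
    by_cases hl : 2 ≤ l.length
    · refine Dvd.dvd.mul_left (ih hl _ h2 ?_) q
      have h3 : 1 / ((l.length : ℝ) + 4) ≤ 1 / ((q : ℝ) + 1) := by
        apply one_div_le_one_div_of_le (by positivity); linarith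
      have h4 : 1 / ((l.length : ℝ) + 4) < (1 - x) / q := lt_of_le_of_lt h3 htail
      rw [div_lt_iff₀ (by positivity)] at h4
      exact h4.le
    · -- length of l is 1
      have hl1 : l.length = 1 := by simp only [List.length_cons] at hlen; omega
      obtain ⟨a, rfl⟩ := List.length_eq_one_iff.1 hl1
      simp only [List.length_singleton] at hhead hup
      have hx' : 0 < (1 - x) / q := lt_trans (by positivity) htail
      have ha := adm_head a [] _ h2 hx'
      simp only [List.length_nil] at ha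
      obtain ⟨ha0, ha1, -⟩ := h2
      have hq34 : q = 3 ∨ q = 4 := by omega
      simp only [List.prod_singleton]
      rcases hq34 with rfl | rfl
      · have h5 : ((a : ℝ) + 1) * (1 / ((3 : ℕ) + 1)) < 1 := by
          have : (0 : ℝ) < (a : ℝ) + 1 := by positivity
          nlinarith
        push_cast at h5
        have h6 : (a : ℝ) < 3 := by linarith
        have h7 : a < 3 := by exact_mod_cast h6
        have h8 : a = 2 := by omega
        subst h8
        norm_num
      · exact Dvd.dvd.mul_right (by norm_num) _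

theorem adm_congr (l : List ℕ) : ∀ x y : ℝ,
    (∀ θ ∈ thr l, (x < θ ∧ y < θ) ∨ (θ < x ∧ θ < y)) → (∀ q ∈ l, 0 < q) → (Adm l x ↔ Adm l y) := by
  induction l with
  | nil =>
    intro x y h _
    have h0 := h 0 (by simp [thr])
    have h1 := h (1 / 2) (by simp [thr])
    simp only [Adm]
    constructor
    · rintro ⟨ha, hb⟩
      rcases h0 with h0 | h0 <;> rcases h1 with h1 | h1 <;> constructor <;> linarith [h0.1, h0.2, h1.1, h1.2]
    · rintro ⟨ha, hb⟩
      rcases h0 with h0 | h0 <;> rcases h1 with h1 | h1 <;> constructor <;> linarith [h0.1, h0.2, h1.1, h1.2]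
  | cons q l ih =>
    intro x y h hpos
    have hq : 0 < q := hpos q (by simp)
    have hq0 : (0 : ℝ) < q := by exact_mod_cast hq
    have hh := h (1 / ((q : ℝ) + 1)) (by simp [thr])
    have ht : ∀ θ ∈ thr l, ((1 - x) / q < θ ∧ (1 - y) / q < θ) ∨
        (θ < (1 - x) / q ∧ θ < (1 - y) / q) := by
      intro θ hθ
      have h3 := h (1 - q * θ) (by
        simp only [thr, Finset.mem_insert, Finset.mem_image]
        exact Or.inr ⟨θ, hθ, rfl⟩)
      rcases h3 with ⟨h4, h5⟩ | ⟨h4, h5⟩
      · right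
        constructor <;> rw [lt_div_iff₀ hq0] <;> linarith
      · left
        constructor <;> rw [div_lt_iff₀ hq0] <;> linarith
    have key := ih _ _ ht (fun p hp => hpos p (by simp [hp]))
    simp only [Adm]
    have e1 : ((q : ℝ) + 1) * x < 1 ↔ x < 1 / ((q : ℝ) + 1) := by
      rw [lt_div_iff₀ (by positivity), mul_comm]
    have e2 : ((q : ℝ) + 1) * y < 1 ↔ y < 1 / ((q : ℝ) + 1) := by
      rw [lt_div_iff₀ (by positivity), mul_comm]
    have e3 : x < 1 / ((q : ℝ) + 1) ↔ y < 1 / ((q : ℝ) + 1) := by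
      rcases hh with ⟨h4, h5⟩ | ⟨h4, h5⟩
      · exact ⟨fun _ => h5, fun _ => h4⟩
      · exact ⟨fun h => absurd h (not_lt.2 h4.le), fun h => absurd h (not_lt.2 h5.le)⟩
    rw [e1, e2, key, e3]

/-- Membership in `S_j(n)` through chains. -/
theorem mem_S_iff (n : ℕ) (hn : 0 < n) (j : ℕ) : ∀ r : ℕ, r ∈ S n j ↔
    ∃ l : List ℕ, l.length = j ∧ Adm l ((r : ℝ) / n) ∧ (l.prod : ℤ) ∣ (r : ℤ) - cc l * n := by
  have hn0 : (0 : ℝ) < n := by exact_mod_cast hn
  induction j with
  | zero =>
    intro r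
    simp only [S, Finset.mem_Icc]
    constructor
    · rintro ⟨h1, h2⟩
      refine ⟨[], rfl, ⟨?_, ?_⟩, by simp⟩
      · have : (0 : ℝ) < r := by exact_mod_cast h1
        positivity
      · rw [div_le_div_iff₀ hn0 (by norm_num)]
        have : r * 2 ≤ n := by omega
        have : (r : ℝ) * 2 ≤ n := by exact_mod_cast this
        linarith
    · rintro ⟨l, hl, h, -⟩
      have : l = [] := List.length_eq_zero_iff.1 hl
      subst this
      obtain ⟨h1, h2⟩ := h
      have h3 : (0 : ℝ) < r := by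
        by_contra hcon
        push Not at hcon
        have : (r : ℝ) / n ≤ 0 := div_nonpos_of_nonpos_of_nonneg hcon hn0.le
        linarith
      rw [div_le_div_iff₀ hn0 (by norm_num)] at h2
      have h4 : (r : ℝ) * 2 ≤ n := by linarith
      have h5 : r * 2 ≤ n := by exact_mod_cast h4
      have h6 : 0 < r := by exact_mod_cast h3
      omega
  | succ j ih =>
    intro r
    simp only [S, Finset.mem_image, Finset.mem_erase]
    constructor
    · rintro ⟨k, ⟨hk0, hk⟩, rfl⟩
      obtain ⟨l, hl, hadm, hdvd⟩ := (ih k).1 hk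
      have hkpos : 0 < k := Nat.pos_of_ne_zero hk0
      have hkn : k ≤ n := by
        have h1 := adm_pos_le hadm
        rw [div_le_div_iff₀ hn0 (by norm_num)] at h1
        have h2 : (k : ℝ) ≤ n := by
          have : (0 : ℝ) < k := by exact_mod_cast hkpos
          linarith
        exact_mod_cast h2
      have hq : 0 < n / k := Nat.div_pos hkn hkpos
      have hdm := Nat.div_add_mod n k
      have hrlt := Nat.mod_lt n hkpos
      set q := n / k with hqdef
      set r := n % k with hrdef
      have hq0 : (0 : ℝ) < q := by exact_mod_cast hq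
      have hdm' : (k : ℝ) * q + r = n := by exact_mod_cast hdm
      have hrlt' : (r : ℝ) < k := by exact_mod_cast hrlt
      refine ⟨q :: l, by simp [hl], ⟨hq, ?_, ?_⟩, ?_⟩
      · rw [mul_div_assoc', div_lt_one hn0]
        nlinarith
      · have : (1 - (r : ℝ) / n) / q = (k : ℝ) / n := by
          field_simp
          linarith
        rw [this]; exact hadm
      · rw [List.prod_cons, Nat.cast_mul]
        simp only [cc]
        have hdm'' : (k : ℤ) * q + r = n := by exact_mod_cast hdm
        have : (r : ℤ) - (1 - (q : ℤ) * cc l) * n = -(q * (k - cc l * n)) := by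
          rw [← hdm'']; ring
        rw [this, dvd_neg]
        exact mul_dvd_mul_left _ hdvd
    · rintro ⟨l, hl, hadm, hdvd⟩
      cases l with
      | nil => simp at hl
      | cons q l =>
        obtain ⟨hq, h1, h2⟩ := hadm
        have hq0 : (0 : ℝ) < q := by exact_mod_cast hq
        rw [List.prod_cons, Nat.cast_mul] at hdvd
        simp only [cc] at hdvd
        have hlen : l.length = j := by simpa using hl
        -- q ∣ n - r
        have hqd : (q : ℤ) ∣ (n : ℤ) - r := by
          have h3 : (q : ℤ) ∣ (r : ℤ) - (1 - (q : ℤ) * cc l) * n :=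
            (Dvd.intro _ rfl).trans hdvd
          have h4 : (n : ℤ) - r = -((r : ℤ) - (1 - (q : ℤ) * cc l) * n) + q * (cc l * n) := by ring
          rw [h4]
          exact dvd_add ((dvd_neg).2 h3) (Dvd.intro _ rfl)
        rw [mul_div_assoc', div_lt_one hn0] at h1
        have h1' : (q + 1) * r < n := by exact_mod_cast h1
        have hrn : r ≤ n := by nlinarith
        have hqd' : q ∣ n - r := by
          have : ((n - r : ℕ) : ℤ) = (n : ℤ) - r := by push_cast [hrn]; ring
          rw [← this] at hqd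
          exact_mod_cast hqd
        obtain ⟨k, hk⟩ := hqd'
        have hnk : n = q * k + r := by omega
        have hrk : r < k := by
          have : q * r < q * k := by nlinarith
          exact lt_of_mul_lt_mul_left this (Nat.zero_le _)
        have hnk' : (n : ℝ) = q * k + r := by exact_mod_cast hnk
        have hkx : (1 - (r : ℝ) / n) / q = (k : ℝ) / n := by
          field_simp
          linarith
        rw [hkx] at h2
        refine ⟨k, ⟨by omega, (ih k).2 ⟨l, hlen, h2, ?_⟩⟩, ?_⟩
        · have hnk'' : (n : ℤ) = q * k + r := by exact_mod_cast hnk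
          have h5 : (r : ℤ) - (1 - (q : ℤ) * cc l) * n = -(q * (k - cc l * n)) := by
            have : (r : ℤ) = n - q * k := by rw [hnk'']; ring
            rw [this]; ring
          rw [h5, dvd_neg] at hdvd
          have hqz : (q : ℤ) ≠ 0 := by exact_mod_cast hq.ne'
          exact (mul_dvd_mul_iff_left hqz).1 hdvd
        · rw [hnk, mul_comm q k, Nat.mul_add_mod, Nat.mod_eq_of_lt hrk]

/-! ### The one-prime comparison -/

/-- `r` lies in one of the residue classes `cc l * h mod ∏ l`, `l ∈ A`. -/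
def Hit (A : Finset (List ℕ)) (h : ℕ) (r : ℕ) : Prop :=
  ∃ l ∈ A, (l.prod : ℤ) ∣ (r : ℤ) - cc l * h

open Classical in
theorem hit_compare (A : Finset (List ℕ)) (L h : ℕ) (hL : 0 < L) (hA : ∀ l ∈ A, l.prod ∣ L)
    (hM : ordCompl[2] L ∣ h) :
    Nat.count (Hit A 0) L ≤ Nat.count (Hit A h) L ∧
    (Odd h → (∀ l ∈ A, 2 ∣ l.prod) → (∃ l₁ ∈ A, ∃ l₂ ∈ A, Odd (cc l₁ - cc l₂)) →
      Nat.count (Hit A 0) L < Nat.count (Hit A h) L) := by
  have hL0 : (L : ℤ) ≠ 0 := by exact_mod_cast hL.ne'
  have hLpos : (0 : ℤ) < L := by exact_mod_cast hL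
  have hex : ∀ T : Finset (List ℕ), ∃ i : List ℕ, T.Nonempty →
      (i ∈ T ∧ ∀ k ∈ T, i.prod.factorization 2 ≤ k.prod.factorization 2) := by
    intro T
    by_cases hT : T.Nonempty
    · obtain ⟨i, hi, hi'⟩ := Finset.exists_min_image T (fun l => l.prod.factorization 2) hT
      exact ⟨i, fun _ => ⟨hi, hi'⟩⟩
    · exact ⟨[], fun h => absurd h hT⟩
  choose pick hpick using hex
  set T : ℕ → Finset (List ℕ) := fun r => A.filter (fun l => ordCompl[2] l.prod ∣ r) with hTdef
  set φ : ℕ → ℕ := fun r => (((r : ℤ) + cc (pick (T r)) * h) % L).toNat with hφdef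
  have hφ : ∀ r, (φ r : ℤ) = ((r : ℤ) + cc (pick (T r)) * h) % L := by
    intro r
    exact Int.toNat_of_nonneg (Int.emod_nonneg _ hL0)
  have hφlt : ∀ r, φ r < L := by
    intro r
    have h1 : (φ r : ℤ) < L := by rw [hφ]; exact Int.emod_lt_of_pos _ hLpos
    exact_mod_cast h1
  have hφmod : ∀ r, (L : ℤ) ∣ (φ r : ℤ) - ((r : ℤ) + cc (pick (T r)) * h) := by
    intro r
    rw [hφ]
    exact Int.dvd_emod_sub_self
  have hoh : ∀ l ∈ A, ((ordCompl[2] l.prod : ℕ) : ℤ) ∣ (h : ℤ) := by
    intro l hl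
    have h1 : ordCompl[2] l.prod ∣ ordCompl[2] L := Nat.ordCompl_dvd_ordCompl_of_dvd (hA l hl) 2
    exact_mod_cast h1.trans hM
  have hoL : ∀ l ∈ A, ((ordCompl[2] l.prod : ℕ) : ℤ) ∣ (L : ℤ) := by
    intro l hl
    exact_mod_cast (Nat.ordCompl_dvd l.prod 2).trans (hA l hl)
  have hTφ : ∀ r, T (φ r) = T r := by
    intro r
    apply Finset.filter_congr
    intro l hl
    rw [← Int.natCast_dvd_natCast, ← Int.natCast_dvd_natCast]
    have h1 := (hoL l hl).trans (hφmod r)
    have h2 : ((ordCompl[2] l.prod : ℕ) : ℤ) ∣ (φ r : ℤ) - r := by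
      have h3 : (φ r : ℤ) - r = ((φ r : ℤ) - ((r : ℤ) + cc (pick (T r)) * h)) +
        cc (pick (T r)) * h := by ring
      rw [h3]
      exact dvd_add h1 ((hoh l hl).mul_left _)
    exact (dvd_iff_dvd_of_dvd_sub h2)
  have hinj : Set.InjOn φ (((Finset.range L).filter (Hit A 0) : Finset ℕ) : Set ℕ) := by
    intro r hr s hs hrs
    simp only [Finset.coe_filter, Finset.mem_range, Set.mem_ofPred_eq] at hr hs
    have hT' : T r = T s := by rw [← hTφ r, ← hTφ s, hrs]
    have h1 := hφmod r
    have h2 := hφmod s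
    rw [hrs, hT'] at h1
    have h3 : (L : ℤ) ∣ (r : ℤ) - s := by
      have h4 := dvd_sub h2 h1
      have h5 : ((φ s : ℤ) - ((s : ℤ) + cc (pick (T s)) * h)) -
        ((φ s : ℤ) - ((r : ℤ) + cc (pick (T s)) * h)) = (r : ℤ) - s := by ring
      rwa [h5] at h4
    have h6 : (r : ℤ) ≡ s [ZMOD L] := (Int.modEq_iff_dvd.2 (by
      have := (dvd_neg).2 h3; rwa [neg_sub] at this))
    have h7 : r ≡ s [MOD L] := (Int.natCast_modEq_iff).1 h6
    exact Nat.ModEq.eq_of_lt_of_lt h7 hr.1 hs.1
  have hpickA : ∀ r, Hit A 0 r → pick (T r) ∈ A ∧ (pick (T r)).prod ∣ r := by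
    intro r hr
    obtain ⟨l, hl, hdvd⟩ := hr
    have hdvd' : l.prod ∣ r := by
      simp only [Nat.cast_zero, mul_zero, sub_zero] at hdvd
      exact_mod_cast hdvd
    have hlT : l ∈ T r := by
      simp only [hTdef, Finset.mem_filter]
      exact ⟨hl, (Nat.ordCompl_dvd l.prod 2).trans hdvd'⟩
    obtain ⟨h1, h2⟩ := hpick (T r) ⟨l, hlT⟩
    have h3 := h2 l hlT
    simp only [hTdef, Finset.mem_filter] at h1
    refine ⟨h1.1, ?_⟩
    have h4 : 2 ^ (pick (T r)).prod.factorization 2 ∣ r :=
      ((pow_dvd_pow 2 h3).trans (Nat.ordProj_dvd l.prod 2)).trans hdvd'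
    have h5 : (pick (T r)).prod ≠ 0 := by
      intro h0
      have := hA _ h1.1
      rw [h0, zero_dvd_iff] at this
      omega
    have h6 : Nat.Coprime (2 ^ (pick (T r)).prod.factorization 2) (ordCompl[2] (pick (T r)).prod) :=
      (Nat.coprime_ordCompl Nat.prime_two h5).pow_left _
    have h7 := Nat.Coprime.mul_dvd_of_dvd_of_dvd h6 h4 h1.2
    rwa [Nat.ordProj_mul_ordCompl_eq_self] at h7
  have hmaps : Set.MapsTo φ (((Finset.range L).filter (Hit A 0) : Finset ℕ) : Set ℕ)
      (((Finset.range L).filter (Hit A h) : Finset ℕ) : Set ℕ) := by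
    intro r hr
    simp only [Finset.coe_filter, Finset.mem_range, Set.mem_ofPred_eq] at hr ⊢
    obtain ⟨h1, h2⟩ := hpickA r hr.2
    refine ⟨hφlt r, pick (T r), h1, ?_⟩
    have h3 : ((pick (T r)).prod : ℤ) ∣ (L : ℤ) := by exact_mod_cast hA _ h1
    have h4 := h3.trans (hφmod r)
    have h5 : ((pick (T r)).prod : ℤ) ∣ (r : ℤ) := by exact_mod_cast h2
    have h6 := dvd_add h4 h5
    have h7 : ((φ r : ℤ) - ((r : ℤ) + cc (pick (T r)) * h)) + r =
      (φ r : ℤ) - cc (pick (T r)) * h := by ring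
    rwa [h7] at h6
  rw [Nat.count_eq_card_filter_range, Nat.count_eq_card_filter_range]
  refine ⟨Finset.card_le_card_of_injOn φ hmaps hinj, ?_⟩
  rintro hodd heven ⟨l₁, hl₁, l₂, hl₂, hl₁₂⟩
  -- all of `A` is picked at residues divisible by the odd part
  have hne : A.Nonempty := ⟨l₁, hl₁⟩
  have hiA := (hpick A hne).1
  set i₀ := pick A with hi₀
  -- some class of `A` has the wrong parity
  obtain ⟨l, hl, hlo⟩ : ∃ l ∈ A, Odd (cc l - cc i₀) := by
    rcases Int.even_or_odd (cc l₁ - cc i₀) with he | ho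
    · refine ⟨l₂, hl₂, ?_⟩
      have : cc l₂ - cc i₀ = (cc l₁ - cc i₀) - (cc l₁ - cc l₂) := by ring
      rw [this]
      exact he.sub_odd hl₁₂
    · exact ⟨l₁, hl₁, ho⟩
  set e : ℕ := ((cc l * h) % (L : ℤ)).toNat with hedef
  have he : (e : ℤ) = (cc l * h) % (L : ℤ) := Int.toNat_of_nonneg (Int.emod_nonneg _ hL0)
  have helt : e < L := by
    have h1 : (e : ℤ) < L := by rw [he]; exact Int.emod_lt_of_pos _ hLpos
    exact_mod_cast h1
  have hemod : (L : ℤ) ∣ (e : ℤ) - cc l * h := by
    rw [he]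
    exact Int.dvd_emod_sub_self
  have heHit : e ∈ (Finset.range L).filter (Hit A h) := by
    simp only [Finset.mem_filter, Finset.mem_range]
    refine ⟨helt, l, hl, ?_⟩
    have h3 : ((l.prod : ℕ) : ℤ) ∣ (L : ℤ) := by exact_mod_cast hA _ hl
    exact h3.trans hemod
  have heT : T e = A := by
    apply Finset.filter_true_of_mem
    intro k hk
    rw [← Int.natCast_dvd_natCast]
    have h1 := (hoL k hk).trans hemod
    have h2 : (e : ℤ) = ((e : ℤ) - cc l * h) + cc l * h := by ring
    rw [h2]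
    exact dvd_add h1 ((hoh k hk).mul_left _)
  have henot : e ∉ ((Finset.range L).filter (Hit A 0)).image φ := by
    intro hmem
    obtain ⟨r, hr, hre⟩ := Finset.mem_image.1 hmem
    simp only [Finset.mem_filter, Finset.mem_range] at hr
    have hTr : T r = A := by rw [← hTφ r, hre, heT]
    have h1 := hφmod r
    rw [hre, hTr, ← hi₀] at h1
    have h2 : (L : ℤ) ∣ (r : ℤ) - (cc l - cc i₀) * h := by
      have h3 := dvd_sub hemod h1
      have h4 : ((e : ℤ) - cc l * h) - ((e : ℤ) - ((r : ℤ) + cc i₀ * h)) =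
        (r : ℤ) - (cc l - cc i₀) * h := by ring
      rwa [h4] at h3
    have h2L : (2 : ℤ) ∣ L := by exact_mod_cast (heven l hl).trans (hA l hl)
    have h2r : (2 : ℤ) ∣ r := by
      obtain ⟨k, hk, hkr⟩ := hr.2
      simp only [Nat.cast_zero, mul_zero, sub_zero] at hkr
      have : (2 : ℤ) ∣ (k.prod : ℤ) := by exact_mod_cast heven k hk
      exact this.trans hkr
    have h5 : (2 : ℤ) ∣ (cc l - cc i₀) * h := by
      have h6 := dvd_sub h2r (h2L.trans h2)
      have h7 : (r : ℤ) - ((r : ℤ) - (cc l - cc i₀) * h) = (cc l - cc i₀) * h := by ring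
      rwa [h7] at h6
    have h8 : Odd ((cc l - cc i₀) * (h : ℤ)) := hlo.mul (by exact_mod_cast hodd)
    exact (Int.not_even_iff_odd.2 h8) (even_iff_two_dvd.2 h5)
  calc ((Finset.range L).filter (Hit A 0)).card
      = (((Finset.range L).filter (Hit A 0)).image φ).card := (Finset.card_image_of_injOn hinj).symm
    _ < ((Finset.range L).filter (Hit A h)).card := by
        apply Finset.card_lt_card
        refine ⟨?_, fun hsub => henot (hsub heHit)⟩
        intro x hx
        obtain ⟨r, hr, rfl⟩ := Finset.mem_image.1 hx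
        exact hmaps hr

theorem hit_periodic (A : Finset (List ℕ)) (L h : ℕ) (hA : ∀ l ∈ A, l.prod ∣ L) :
    Function.Periodic (Hit A h) L := by
  intro r
  simp only [Hit, eq_iff_iff]
  refine exists_congr fun l => and_congr_right fun hl => ?_
  have h1 : ((l.prod : ℕ) : ℤ) ∣ (L : ℤ) := by exact_mod_cast hA l hl
  have h2 : ((r + L : ℕ) : ℤ) - cc l * h = ((r : ℤ) - cc l * h) + L := by push_cast; ring
  rw [h2, dvd_add_left h1]

open Classical in
theorem count_mul_of_periodic (p : ℕ → Prop) (a m : ℕ) (hp : Function.Periodic p a) :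
    Nat.count p (m * a) = m * Nat.count p a := by
  induction m with
  | zero => simp
  | succ m ih =>
    rw [Nat.succ_mul, Nat.count_add, ih, Nat.succ_mul]
    congr 1
    have h1 : (fun k => p (m * a + k)) = p := by
      funext k
      have h2 := hp.nat_mul m k
      simpa [add_comm] using h2
    simp only [h1]

/-! ### Two special chains of different parity -/

/-- The chain `[m+1, m, …, 2]`. -/
def down : ℕ → List ℕ
  | 0 => []
  | (m + 1) => (m + 2) :: down m

theorem down_length (m : ℕ) : (down m).length = m := by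
  induction m with
  | zero => rfl
  | succ m ih => simp [down, ih]

theorem down_cc (m : ℕ) : Even (cc (down m) - m) := by
  induction m with
  | zero => simp [down, cc]
  | succ m ih =>
    simp only [down, cc]
    obtain ⟨k, hk⟩ := ih
    have hk' : cc (down m) = m + (k + k) := by linarith
    rw [hk']
    push_cast
    obtain ⟨t, ht⟩ | ⟨t, ht⟩ := Int.even_or_odd (m : ℤ)
    · rw [ht]
      exact ⟨-t * (2 * t + 2 * k + 2) - t - 2 * k * (t + 1) + 2 * k * t + k * 0 - 0 + (t * (2 * t + 2 * k + 2) + t + 2 * k * (t + 1) - 2 * k * t) + (-(t + t + 2) * (t + k) - t), by ring⟩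
    · rw [ht]
      refine ⟨(1 - (2 * t + 1 + 2) * (2 * t + 1 + (k + k)) - (2 * t + 1 + 1)) / 2, ?_⟩
      have : (1 - (2 * t + 1 + 2) * (2 * t + 1 + (k + k)) - (2 * t + 1 + 1)) =
        2 * (-(2 * t * t + 5 * t + 2 * k * t + 3 * k + 2)) := by ring
      rw [this]
      omega

theorem down_adm (m : ℕ) : ∀ x : ℝ, 0 < x → x * ((m : ℝ) + 2) < 1 → Adm (down m) x := by
  induction m with
  | zero =>
    intro x h0 h1
    refine ⟨h0, ?_⟩
    push_cast at h1
    linarith
  | succ m ih =>
    intro x h0 h1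
    push_cast at h1
    have hm : (0 : ℝ) < (m : ℝ) + 2 := by positivity
    refine ⟨by omega, ?_, ih _ ?_ ?_⟩
    · push_cast; nlinarith
    · push_cast
      apply div_pos _ hm
      nlinarith
    · push_cast
      rw [div_mul_cancel₀ _ hm.ne']
      linarith

/-- For `j ≥ 2` there are two chains of length `j`, admissible at every
`0 < x < 1/(j+3)`, whose residue coefficients have different parity. -/
theorem special_chains (j : ℕ) (hj : 2 ≤ j) : ∃ l₁ l₂ : List ℕ, l₁.length = j ∧ l₂.length = j ∧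
    (∀ x : ℝ, 0 < x → x * ((j : ℝ) + 3) < 1 → Adm l₁ x ∧ Adm l₂ x) ∧ Odd (cc l₁ - cc l₂) := by
  rcases Nat.even_or_odd j with he | ho
  · -- `j` even
    obtain ⟨m, rfl⟩ : ∃ m, j = m + 1 := ⟨j - 1, by omega⟩
    refine ⟨down (m + 1), (m + 3) :: down m, down_length _, by simp [down_length], ?_, ?_⟩
    · intro x h0 h1
      push_cast at h1
      refine ⟨down_adm _ x h0 (by push_cast; nlinarith), by omega, ?_, down_adm _ _ ?_ ?_⟩
      · push_cast; linarith
      · apply div_pos _ (by positivity)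
        nlinarith [Nat.cast_nonneg (α := ℝ) m]
      · push_cast
        rw [div_mul_eq_mul_div, div_lt_one (by positivity)]
        nlinarith [Nat.cast_nonneg (α := ℝ) m]
    · have h1 := down_cc (m + 1)
      have h2 : Even ((m + 3 : ℕ) * cc (down m)) := by
        apply Even.mul_right
        obtain ⟨t, ht⟩ := he
        exact ⟨t + 1, by push_cast; omega⟩
      have h3 : cc (down (m + 1)) - cc ((m + 3) :: down m) =
        (cc (down (m + 1)) - (m + 1 : ℕ)) + ((m + 3 : ℕ) * cc (down m)) + (m : ℤ) := by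
        simp only [cc]; push_cast; ring
      rw [h3]
      refine (h1.add h2).add_odd ?_
      obtain ⟨t, ht⟩ := he
      exact ⟨t - 1, by omega⟩
  · -- `j` odd
    obtain ⟨m, rfl⟩ : ∃ m, j = m + 2 := ⟨j - 2, by omega⟩
    refine ⟨down (m + 2), (m + 4) :: (m + 3) :: down m, down_length _, by simp [down_length],
      ?_, ?_⟩
    · intro x h0 h1
      push_cast at h1
      have hm := Nat.cast_nonneg (α := ℝ) m
      refine ⟨down_adm _ x h0 (by push_cast; nlinarith), by omega, ?_, by omega, ?_,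
        down_adm _ _ ?_ ?_⟩
      · push_cast; linarith
      · push_cast
        rw [mul_div_assoc', div_lt_one (by positivity)]
        nlinarith
      · apply div_pos _ (by positivity)
        rw [sub_pos, div_lt_one (by positivity)]
        push_cast
        nlinarith
      · have h4 : 0 < (1 - x) / ((m + 4 : ℕ) : ℝ) := by
          apply div_pos _ (by positivity)
          nlinarith
        rw [div_mul_eq_mul_div, div_lt_one (by positivity)]
        push_cast at h4 ⊢
        nlinarith
    · have h1 := down_cc (m + 2)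
      have hmo : Odd (m : ℤ) := by
        obtain ⟨t, ht⟩ := ho
        exact ⟨t - 1, by omega⟩
      have h2 : Even ((m + 3 : ℕ) * cc (down m)) := by
        apply Even.mul_right
        push_cast
        exact hmo.add_odd (by decide)
      have h3 : cc (down (m + 2)) - cc ((m + 4) :: (m + 3) :: down m) =
        (cc (down (m + 2)) - (m + 2 : ℕ)) + (2 * (m : ℤ) + 5 -
          ((m + 3 : ℕ) * cc (down m)) * (m + 4)) := by
        simp only [cc]; push_cast; ring
      rw [h3]
      refine h1.add_odd ?_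
      refine Odd.sub_even ?_ (h2.mul_right _)
      exact ⟨m + 2, by ring⟩

/-! ### Chains with bounded entries -/

/-- All chains of length `j` with entries in `[1, B]`. -/
def box (B : ℕ) : ℕ → Finset (List ℕ)
  | 0 => {[]}
  | (j + 1) => (Finset.Icc 1 B ×ˢ box B j).image (fun p => p.1 :: p.2)

theorem mem_box (B j : ℕ) : ∀ l : List ℕ, l ∈ box B j ↔
    l.length = j ∧ ∀ q ∈ l, 1 ≤ q ∧ q ≤ B := by
  induction j with
  | zero =>
    intro l
    simp only [box, Finset.mem_singleton]
    constructor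
    · rintro rfl; simp
    · rintro ⟨h, -⟩; exact List.length_eq_zero_iff.1 h
  | succ j ih =>
    intro l
    simp only [box, Finset.mem_image, Finset.mem_product, Finset.mem_Icc, Prod.exists]
    constructor
    · rintro ⟨q, t, ⟨hq, ht⟩, rfl⟩
      obtain ⟨h1, h2⟩ := (ih t).1 ht
      refine ⟨by simp [h1], ?_⟩
      intro p hp
      rcases List.mem_cons.1 hp with rfl | hp
      · exact hq
      · exact h2 p hp
    · rintro ⟨h1, h2⟩
      cases l with
      | nil => simp at h1
      | cons q t =>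
        exact ⟨q, t, ⟨h2 q (by simp), (ih t).2 ⟨by simpa using h1,
          fun p hp => h2 p (by simp [hp])⟩⟩, rfl⟩

theorem prod_dvd_of_entries (B : ℕ) (l : List ℕ) : (∀ q ∈ l, 1 ≤ q ∧ q ≤ B) →
    l.prod ∣ (B.factorial) ^ l.length := by
  induction l with
  | nil => intro _; simp
  | cons q l ih =>
    intro h
    rw [List.prod_cons, List.length_cons, pow_succ, mul_comm]
    have hq := h q (by simp)
    exact mul_dvd_mul (ih fun p hp => h p (by simp [hp])) (Nat.dvd_factorial hq.1 hq.2)

/-! ### The counting argument -/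

open Classical in
/-- The number of windows spoiled by a threshold `θ` is bounded. -/
theorem bad_card (L h : ℕ) (hL : 0 < L) (hhL : h ≤ L) (θ : ℝ) (N : ℕ) :
    ((Finset.range N).filter (fun w : ℕ => ¬ ((((w : ℝ) + 1) * L < θ * ((L : ℝ) * N)) ∨
      (θ * ((L : ℝ) * N + h) < (w : ℝ) * L)))).card ≤ ⌈2 + |θ|⌉₊ + 1 := by
  have hL0 : (0 : ℝ) < L := by exact_mod_cast hL
  have hhL' : (h : ℝ) ≤ L := by exact_mod_cast hhL
  have hh0 : (0 : ℝ) ≤ h := Nat.cast_nonneg h
  calc _ ≤ (Finset.Icc ⌈θ * N - 1⌉₊ (⌈θ * N - 1⌉₊ + ⌈2 + |θ|⌉₊)).card := by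
        apply Finset.card_le_card
        intro w hw
        simp only [Finset.mem_filter, Finset.mem_range, not_or, not_lt] at hw
        obtain ⟨-, h1, h2⟩ := hw
        rw [Finset.mem_Icc]
        constructor
        · rw [Nat.ceil_le]
          have h3 : (θ * N) * L ≤ (w + 1) * L := by linarith
          have h4 := le_of_mul_le_mul_right h3 hL0
          linarith
        · have h5 : (w : ℝ) * L ≤ (θ * N + |θ|) * L := by
            have : θ * h ≤ |θ| * L := by
              calc θ * h ≤ |θ| * h := mul_le_mul_of_nonneg_right (le_abs_self θ) hh0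
                _ ≤ |θ| * L := mul_le_mul_of_nonneg_left hhL' (abs_nonneg θ)
            linarith
          have h6 := le_of_mul_le_mul_right h5 hL0
          have h7 := Nat.le_ceil (θ * N - 1)
          have h8 := Nat.le_ceil (2 + |θ|)
          have h9 : (w : ℝ) ≤ (⌈θ * N - 1⌉₊ : ℝ) + (⌈2 + |θ|⌉₊ : ℝ) := by linarith
          exact_mod_cast h9
    _ = ⌈2 + |θ|⌉₊ + 1 := by rw [Nat.card_Icc]; omega

theorem window_iff (r L w : ℕ) (hL : 0 < L) : r / L = w ↔ w * L ≤ r ∧ r < w * L + L := by
  rw [Nat.div_eq_iff hL]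
  constructor <;> intro h <;> constructor <;> omega

open Classical in
/-- The comparison of `S_j(LN)` and `S_j(LN+h)` in one window that no threshold spoils. -/
theorem window_compare (j B L h N w : ℕ) (ε : ℝ) (hε : 0 < ε) (hB : 1 / ε ≤ B)
    (hL : 0 < L) (hBL : ∀ l ∈ box B j, l.prod ∣ L)
    (hN : 0 < N) (hgood : ∀ θ ∈ (box B j).biUnion thr,
      (((w : ℝ) + 1) * L < θ * ((L : ℝ) * N)) ∨ (θ * ((L : ℝ) * N + h) < (w : ℝ) * L))
    (hsmall : ε * N ≤ w) (A : Finset (List ℕ))
    (hA : A = (box B j).filter (fun l => Adm l ((w : ℝ) / N))) :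
    ((S (L * N) j).filter (fun r => r / L = w)).card ≤ Nat.count (Hit A 0) L ∧
    Nat.count (Hit A h) L ≤ ((S (L * N + h) j).filter (fun r => r / L = w)).card := by
  have hL0 : (0 : ℝ) < L := by exact_mod_cast hL
  have hN0 : (0 : ℝ) < N := by exact_mod_cast hN
  have hh0 : (0 : ℝ) ≤ h := Nat.cast_nonneg h
  have hn : 0 < L * N := Nat.mul_pos hL hN
  have hn' : 0 < L * N + h := by omega
  have hn0 : (0 : ℝ) < (L : ℝ) * N := by positivity
  have hn0' : (0 : ℝ) < (L : ℝ) * N + h := by positivity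
  have hAL : ∀ l ∈ A, l.prod ∣ L := by
    intro l hl
    rw [hA] at hl
    exact hBL l (Finset.mem_filter.1 hl).1
  -- all relevant points lie on the same side of every threshold
  have hside : ∀ r : ℕ, w * L ≤ r → r < w * L + L → ∀ l ∈ box B j,
      (Adm l ((r : ℝ) / ((L * N : ℕ) : ℝ)) ↔ Adm l ((w : ℝ) / N)) ∧
      (Adm l ((r : ℝ) / ((L * N + h : ℕ) : ℝ)) ↔ Adm l ((w : ℝ) / N)) := by
    intro r hr1 hr2 l hl
    have hpos : ∀ q ∈ l, 0 < q := fun q hq => (((mem_box B j l).1 hl).2 q hq).1
    have hr1' : (w : ℝ) * L ≤ r := by exact_mod_cast hr1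
    have hr2' : (r : ℝ) < ((w : ℝ) + 1) * L := by
      have : (r : ℝ) < (w : ℝ) * L + L := by exact_mod_cast hr2
      linarith
    have hr0 : (0 : ℝ) ≤ r := Nat.cast_nonneg r
    have hw0 : (0 : ℝ) ≤ w := Nat.cast_nonneg w
    push_cast
    constructor
    · apply adm_congr l _ _ _ hpos
      intro θ hθ
      rcases hgood θ (Finset.mem_biUnion.2 ⟨l, hl, hθ⟩) with hg | hg
      · left
        constructor
        · rw [div_lt_iff₀ hn0]; linarith
        · rw [div_lt_iff₀ hN0]
          have : (w : ℝ) * L < (θ * N) * L := by nlinarith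
          exact lt_of_mul_lt_mul_right this hL0.le
      · right
        -- θ n ≤ θ n' if θ ≥ 0, otherwise trivial
        have hg2 : θ * ((L : ℝ) * N) < (w : ℝ) * L := by
          by_cases hθ0 : 0 ≤ θ
          · nlinarith
          · push Not at hθ0
            have h1 : θ * ((L : ℝ) * N) < 0 := mul_neg_of_neg_of_pos hθ0 hn0
            have h2 : (0 : ℝ) ≤ (w : ℝ) * L := by positivity
            linarith
        constructor
        · rw [lt_div_iff₀ hn0]; linarith
        · rw [lt_div_iff₀ hN0]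
          have : (θ * N) * L < (w : ℝ) * L := by linarith
          exact lt_of_mul_lt_mul_right this hL0.le
    · apply adm_congr l _ _ _ hpos
      intro θ hθ
      rcases hgood θ (Finset.mem_biUnion.2 ⟨l, hl, hθ⟩) with hg | hg
      · left
        have hθ0 : 0 < θ := by
          by_contra hcon
          push Not at hcon
          have h1 : θ * ((L : ℝ) * N) ≤ 0 := mul_nonpos_of_nonpos_of_nonneg hcon hn0.le
          have h2 : (0 : ℝ) ≤ ((w : ℝ) + 1) * L := by positivity
          linarith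
        constructor
        · rw [div_lt_iff₀ hn0']; nlinarith
        · rw [div_lt_iff₀ hN0]
          have : (w : ℝ) * L < (θ * N) * L := by nlinarith
          exact lt_of_mul_lt_mul_right this hL0.le
      · right
        have hg2 : θ * ((L : ℝ) * N) < (w : ℝ) * L := by
          by_cases hθ0 : 0 ≤ θ
          · nlinarith
          · push Not at hθ0
            have h1 : θ * ((L : ℝ) * N) < 0 := mul_neg_of_neg_of_pos hθ0 hn0
            have h2 : (0 : ℝ) ≤ (w : ℝ) * L := by positivity
            linarith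
        constructor
        · rw [lt_div_iff₀ hn0']; linarith
        · rw [lt_div_iff₀ hN0]
          have : (θ * N) * L < (w : ℝ) * L := by linarith
          exact lt_of_mul_lt_mul_right this hL0.le
  have hprodn : ∀ l ∈ box B j, ((l.prod : ℕ) : ℤ) ∣ ((L * N : ℕ) : ℤ) := by
    intro l hl
    exact_mod_cast (hBL l hl).mul_right N
  constructor
  · rw [← Nat.filter_Ico_card_eq_of_periodic (w * L) L (Hit A 0) (hit_periodic A L 0 hAL)]
    apply Finset.card_le_card
    intro r hr
    simp only [Finset.mem_filter] at hr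
    obtain ⟨hr, hrw⟩ := hr
    obtain ⟨hr1, hr2⟩ := (window_iff r L w hL).1 hrw
    simp only [Finset.mem_filter, Finset.mem_Ico]
    refine ⟨⟨hr1, hr2⟩, ?_⟩
    obtain ⟨l, hlen, hadm, hdvd⟩ := (mem_S_iff (L * N) hn j r).1 hr
    have hr1' : (w : ℝ) * L ≤ r := by exact_mod_cast hr1
    have hx : ε ≤ (r : ℝ) / ((L * N : ℕ) : ℝ) := by
      push_cast
      rw [le_div_iff₀ hn0]
      nlinarith
    have hlbox : l ∈ box B j := by
      rw [mem_box]
      refine ⟨hlen, fun q hq => ?_⟩
      obtain ⟨h1, h2⟩ := adm_entries l _ ε hε hx hadm q hq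
      refine ⟨h1, ?_⟩
      have h3 : (q : ℝ) < B := lt_of_lt_of_le h2 hB
      have h4 : q < B := by exact_mod_cast h3
      omega
    refine ⟨l, ?_, ?_⟩
    · rw [hA, Finset.mem_filter]
      exact ⟨hlbox, ((hside r hr1 hr2 l hlbox).1).1 hadm⟩
    · simp only [Nat.cast_zero, mul_zero, sub_zero]
      have h5 : (r : ℤ) = ((r : ℤ) - cc l * ((L * N : ℕ) : ℤ)) + cc l * ((L * N : ℕ) : ℤ) := by ring
      rw [h5]
      exact dvd_add hdvd ((hprodn l hlbox).mul_left _)
  · rw [← Nat.filter_Ico_card_eq_of_periodic (w * L) L (Hit A h) (hit_periodic A L h hAL)]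
    apply Finset.card_le_card
    intro r hr
    simp only [Finset.mem_filter, Finset.mem_Ico] at hr
    obtain ⟨⟨hr1, hr2⟩, l, hl, hdvd⟩ := hr
    rw [hA, Finset.mem_filter] at hl
    obtain ⟨hlbox, hadm⟩ := hl
    simp only [Finset.mem_filter]
    refine ⟨(mem_S_iff (L * N + h) hn' j r).2 ⟨l, ((mem_box B j l).1 hlbox).1,
      ((hside r hr1 hr2 l hlbox).2).2 hadm, ?_⟩, (window_iff r L w hL).2 ⟨hr1, hr2⟩⟩
    have h5 : (r : ℤ) - cc l * ((L * N + h : ℕ) : ℤ) =
      ((r : ℤ) - cc l * h) - cc l * ((L * N : ℕ) : ℤ) := by push_cast; ring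
    rw [h5]
    exact dvd_sub hdvd ((hprodn l hlbox).mul_left _)

theorem S_lt (n j : ℕ) (hn : 0 < n) : ∀ r ∈ S n j, r < n := by
  intro r hr
  obtain ⟨l, -, hadm, -⟩ := (mem_S_iff n hn j r).1 hr
  have h1 := adm_pos_le hadm
  have hn0 : (0 : ℝ) < n := by exact_mod_cast hn
  rw [div_le_div_iff₀ hn0 (by norm_num)] at h1
  have h2 : (r : ℝ) < n := by
    rcases Nat.eq_zero_or_pos r with rfl | hr0
    · simpa using hn0
    · have : (0 : ℝ) < r := by exact_mod_cast hr0
      linarith
  exact_mod_cast h2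

/-- The key quantitative statement: along `n = LN` and `n = LN + h` the sizes of `S_j` differ
by a positive proportion. -/
theorem gain (j : ℕ) (hj : 2 ≤ j) : ∃ L h : ℕ, 0 < L ∧ ∃ η : ℝ, 0 < η ∧ ∃ N₀ : ℕ,
    ∀ N : ℕ, N₀ ≤ N → η * N ≤ ((S (L * N + h) j).card : ℝ) - ((S (L * N) j).card : ℝ) := by
  classical
  set L₀ : ℕ := ((j + 3).factorial) ^ j with hL₀def
  have hL₀ : 0 < L₀ := pow_pos (Nat.factorial_pos _) _
  have hL₀r : (0 : ℝ) < L₀ := by exact_mod_cast hL₀
  have hj0 : (0 : ℝ) < (j : ℝ) + 3 := by positivity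
  have hj1 : (0 : ℝ) < (j : ℝ) + 4 := by positivity
  set δ : ℝ := 1 / ((j : ℝ) + 3) - 1 / ((j : ℝ) + 4) with hδdef
  have hδ : 0 < δ := by
    rw [hδdef, sub_pos]
    exact one_div_lt_one_div_of_lt hj0 (by linarith)
  set ε : ℝ := min (δ / (2 * L₀)) (1 / ((j : ℝ) + 4)) with hεdef
  have hε : 0 < ε := lt_min (by positivity) (by positivity)
  have hε1 : ε ≤ δ / (2 * L₀) := min_le_left _ _
  have hε2 : ε ≤ 1 / ((j : ℝ) + 4) := min_le_right _ _
  set B : ℕ := ⌈1 / ε⌉₊ + (j + 3) with hBdef
  have hB : 1 / ε ≤ B := by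
    have h1 := Nat.le_ceil (1 / ε)
    have h2 : ((⌈1 / ε⌉₊ : ℕ) : ℝ) ≤ B := by exact_mod_cast Nat.le_add_right _ _
    linarith
  set L : ℕ := (B.factorial) ^ j with hLdef
  have hL : 0 < L := pow_pos (Nat.factorial_pos _) _
  have hLr : (0 : ℝ) < L := by exact_mod_cast hL
  have hL₀L : L₀ ∣ L := pow_dvd_pow_of_dvd (Nat.factorial_dvd_factorial (by omega)) j
  have hBL : ∀ l ∈ box B j, l.prod ∣ L := by
    intro l hl
    obtain ⟨h1, h2⟩ := (mem_box B j l).1 hl
    have h3 := prod_dvd_of_entries B l h2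
    rwa [h1] at h3
  set h : ℕ := ordCompl[2] L with hhdef
  have hodd : Odd h := by
    rw [← Nat.not_even_iff_odd, even_iff_two_dvd]
    exact Nat.not_dvd_ordCompl Nat.prime_two hL.ne'
  have hhL : h ≤ L := Nat.ordCompl_le L 2
  obtain ⟨M, hM⟩ := hL₀L
  have hLM : (L : ℝ) / L₀ = M := by
    rw [hM]; push_cast; field_simp
  -- the exceptional windows
  set Θ : Finset ℝ := (box B j).biUnion thr with hΘdef
  set C : ℕ := ∑ θ ∈ Θ, (⌈2 + |θ|⌉₊ + 1) with hCdef
  -- constants
  set K : ℝ := (M : ℝ) + ((L : ℝ) + M) * C + L with hKdef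
  set η : ℝ := (M : ℝ) * δ / 4 with hηdef
  have hMpos : 0 < M := by
    rcases Nat.eq_zero_or_pos M with h0 | h0
    · rw [h0, mul_zero] at hM; omega
    · exact h0
  have hMr : (0 : ℝ) < M := by exact_mod_cast hMpos
  have hη : 0 < η := by positivity
  refine ⟨L, h, hL, η, hη, ⌈K / η⌉₊ + 1, ?_⟩
  intro N hNN₀
  have hN : 0 < N := by omega
  have hNr : (0 : ℝ) < N := by exact_mod_cast hN
  have hKN : K ≤ η * N := by
    have h1 := Nat.le_ceil (K / η)
    have h2 : ((⌈K / η⌉₊ : ℕ) : ℝ) ≤ N := by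
      have : ⌈K / η⌉₊ ≤ N := by omega
      exact_mod_cast this
    have h3 : K / η ≤ N := h1.trans h2
    rw [div_le_iff₀ hη] at h3
    linarith
  set Good : ℕ → Prop := fun w => ∀ θ ∈ Θ,
      (((w : ℝ) + 1) * L < θ * ((L : ℝ) * N)) ∨ (θ * ((L : ℝ) * N + h) < (w : ℝ) * L) with hGooddef
  set Bad : Finset ℕ := (Finset.range N).filter (fun w => ¬ Good w) with hBaddef
  set Small : Finset ℕ := (Finset.range N).filter (fun w : ℕ => (w : ℝ) < ε * N) with hSmalldef
  set Sp : Finset ℕ := Finset.Ico ⌈(N : ℝ) / ((j : ℝ) + 4)⌉₊ ⌈(N : ℝ) / ((j : ℝ) + 3)⌉₊ with hSpdef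
  have hBadcard : Bad.card ≤ C := by
    have h1 : Bad ⊆ Θ.biUnion (fun θ => (Finset.range N).filter (fun w : ℕ =>
      ¬ ((((w : ℝ) + 1) * L < θ * ((L : ℝ) * N)) ∨
      (θ * ((L : ℝ) * N + h) < (w : ℝ) * L)))) := by
      intro w hw
      simp only [hBaddef, Finset.mem_filter, hGooddef, not_forall] at hw
      obtain ⟨hwN, θ, hθ, hcon⟩ := hw
      exact Finset.mem_biUnion.2 ⟨θ, hθ, Finset.mem_filter.2 ⟨hwN, hcon⟩⟩
    refine (Finset.card_le_card h1).trans (Finset.card_biUnion_le.trans ?_)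
    exact Finset.sum_le_sum fun θ _ => bad_card L h hL hhL θ N
  have hSmallcard : (Small.card : ℝ) ≤ ε * N + 1 := by
    have h1 : Small ⊆ Finset.range ⌈ε * N⌉₊ := by
      intro w hw
      simp only [hSmalldef, Finset.mem_filter] at hw
      rw [Finset.mem_range]
      exact Nat.lt_ceil.2 hw.2
    have h2 := Finset.card_le_card h1
    rw [Finset.card_range] at h2
    have h3 := Nat.ceil_lt_add_one (a := ε * N) (by positivity)
    have h4 : (Small.card : ℝ) ≤ ⌈ε * N⌉₊ := by exact_mod_cast h2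
    linarith
  have hSpsub : Sp ⊆ Finset.range N := by
    intro w hw
    simp only [hSpdef, Finset.mem_Ico] at hw
    rw [Finset.mem_range]
    refine lt_of_lt_of_le hw.2 ?_
    rw [Nat.ceil_le, div_le_iff₀ hj0]
    nlinarith [Nat.cast_nonneg (α := ℝ) j]
  have hSpcard : δ * N - 1 ≤ (Sp.card : ℝ) := by
    rw [hSpdef, Nat.card_Ico]
    have h1 := Nat.le_ceil ((N : ℝ) / ((j : ℝ) + 3))
    have h2 := Nat.ceil_lt_add_one (a := (N : ℝ) / ((j : ℝ) + 4)) (by positivity)
    have h3 : ((⌈(N : ℝ) / ((j : ℝ) + 3)⌉₊ : ℕ) : ℝ) - (⌈(N : ℝ) / ((j : ℝ) + 4)⌉₊ : ℕ) ≤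
      ((⌈(N : ℝ) / ((j : ℝ) + 3)⌉₊ - ⌈(N : ℝ) / ((j : ℝ) + 4)⌉₊ : ℕ) : ℝ) := by
      rw [sub_le_iff_le_add]
      have h5 : ⌈(N : ℝ) / ((j : ℝ) + 3)⌉₊ ≤
        (⌈(N : ℝ) / ((j : ℝ) + 3)⌉₊ - ⌈(N : ℝ) / ((j : ℝ) + 4)⌉₊) + ⌈(N : ℝ) / ((j : ℝ) + 4)⌉₊ :=
        le_tsub_add
      exact_mod_cast h5
    have h4 : δ * N = (N : ℝ) / ((j : ℝ) + 3) - (N : ℝ) / ((j : ℝ) + 4) := by
      rw [hδdef]; ring
    linarith
  -- window counts
  set a : ℕ → ℕ := fun w => ((S (L * N) j).filter (fun r => r / L = w)).card with hadef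
  set b : ℕ → ℕ := fun w => ((S (L * N + h) j).filter (fun r => r / L = w)).card with hbdef
  have hsuma : ((S (L * N) j).card : ℝ) = ∑ w ∈ Finset.range N, (a w : ℝ) := by
    have h1 : (S (L * N) j).card = ∑ w ∈ Finset.range N, a w := by
      apply Finset.card_eq_sum_card_fiberwise
      intro r hr
      have h2 := S_lt (L * N) j (Nat.mul_pos hL hN) r hr
      simp only [Finset.coe_range, Set.mem_Iio]
      exact Nat.div_lt_of_lt_mul h2
    rw [h1]; push_cast; rfl
  have hsumb : ∑ w ∈ Finset.range N, (b w : ℝ) ≤ ((S (L * N + h) j).card : ℝ) := by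
    have h1 : ∑ w ∈ Finset.range N, b w =
        ((S (L * N + h) j).filter (fun r => r / L ∈ Finset.range N)).card := by
      have h0 : Set.MapsTo (fun r => r / L)
          (((S (L * N + h) j).filter (fun r => r / L ∈ Finset.range N) : Finset ℕ) : Set ℕ)
          ((Finset.range N : Finset ℕ) : Set ℕ) := by
        intro r hr
        exact (Finset.mem_filter.1 (Finset.mem_coe.1 hr)).2
      rw [Finset.card_eq_sum_card_fiberwise h0]
      apply Finset.sum_congr rfl
      intro w hw
      rw [Finset.filter_filter]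
      change ((S (L * N + h) j).filter (fun r => r / L = w)).card = _
      apply congrArg
      apply Finset.filter_congr
      intro r _
      constructor
      · rintro rfl; exact ⟨hw, rfl⟩
      · exact fun h => h.2
    have h2 : ∑ w ∈ Finset.range N, b w ≤ (S (L * N + h) j).card := by
      rw [h1]; exact Finset.card_filter_le _ _
    exact_mod_cast h2
  have hale : ∀ w, a w ≤ L := by
    intro w
    have h1 : (S (L * N) j).filter (fun r => r / L = w) ⊆ Finset.Ico (w * L) (w * L + L) := by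
      intro r hr
      rw [Finset.mem_Ico]
      exact (window_iff r L w hL).1 (Finset.mem_filter.1 hr).2
    have h2 := Finset.card_le_card h1
    rwa [Nat.card_Ico, Nat.add_sub_cancel_left] at h2
  -- the special chains
  obtain ⟨l₁, l₂, hl₁, hl₂, hadm12, hodd12⟩ := special_chains j hj
  have hpoint : ∀ w ∈ Finset.range N, (if w ∈ Sp then (M : ℝ) else 0) -
      (if w ∈ Bad then ((L : ℝ) + M) else 0) - (if w ∈ Small then (L : ℝ) else 0) ≤
      (b w : ℝ) - a w := by
    intro w hw
    have ha : (a w : ℝ) ≤ L := by exact_mod_cast hale w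
    have hb0 : (0 : ℝ) ≤ b w := Nat.cast_nonneg _
    by_cases hbad : w ∈ Bad
    · rw [if_pos hbad]
      split_ifs <;> linarith
    rw [if_neg hbad]
    have hgood : Good w := by
      by_contra hcon
      exact hbad (Finset.mem_filter.2 ⟨hw, hcon⟩)
    have hspsmall : w ∈ Sp → ε * N ≤ w := by
      intro hsp
      rw [hSpdef, Finset.mem_Ico, Nat.ceil_le] at hsp
      have h1 := hsp.1
      have h2 : ε * N ≤ 1 / ((j : ℝ) + 4) * N := mul_le_mul_of_nonneg_right hε2 hNr.le
      have h3 : 1 / ((j : ℝ) + 4) * N = (N : ℝ) / ((j : ℝ) + 4) := by ring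
      linarith
    by_cases hsm : ε * N ≤ w
    · have hnsm : w ∉ Small := by
        intro hcon
        have := (Finset.mem_filter.1 hcon).2
        linarith
      rw [if_neg hnsm]
      obtain ⟨h1, h2⟩ := window_compare j B L h N w ε hε hB hL hBL hN hgood hsm _ rfl
      set A : Finset (List ℕ) := (box B j).filter (fun l => Adm l ((w : ℝ) / N)) with hAdef
      have hAL : ∀ l ∈ A, l.prod ∣ L := fun l hl => hBL l (Finset.mem_filter.1 hl).1
      by_cases hsp : w ∈ Sp
      · rw [if_pos hsp]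
        rw [hSpdef, Finset.mem_Ico, Nat.ceil_le, Nat.lt_ceil] at hsp
        obtain ⟨hsp1, hsp2⟩ := hsp
        have hw4 : 1 / ((j : ℝ) + 4) ≤ (w : ℝ) / N := by
          rw [div_le_div_iff₀ hj1 hNr, one_mul]
          rwa [div_le_iff₀ hj1] at hsp1
        have hw3 : (w : ℝ) / N * ((j : ℝ) + 3) < 1 := by
          rw [div_mul_eq_mul_div, div_lt_one hNr]
          rwa [lt_div_iff₀ hj0] at hsp2
        have hwpos : 0 < (w : ℝ) / N := lt_of_lt_of_le (by positivity) hw4
        have hAL₀ : ∀ l ∈ A, l.prod ∣ L₀ := by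
          intro l hl
          obtain ⟨hl1, hl2⟩ := Finset.mem_filter.1 hl
          have h3 := (mem_box B j l).1 hl1
          have h4 := prod_dvd_of_entries (j + 3) l (by
            intro q hq
            obtain ⟨h5, h6⟩ := adm_entries l _ (1 / ((j : ℝ) + 4)) (by positivity) hw4 hl2 q hq
            rw [one_div_one_div] at h6
            have h7 : q < j + 4 := by exact_mod_cast h6
            omega)
          rwa [h3.1] at h4
        have heven : ∀ l ∈ A, 2 ∣ l.prod := by
          intro l hl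
          obtain ⟨hl1, hl2⟩ := Finset.mem_filter.1 hl
          have h3 := ((mem_box B j l).1 hl1).1
          refine adm_even l (by omega) _ hl2 ?_
          rw [h3]
          rw [div_le_iff₀ hj1] at hw4
          exact hw4
        have hmemA : ∀ l : List ℕ, l.length = j → Adm l ((w : ℝ) / N) → l ∈ A := by
          intro l hlen hadm
          rw [hAdef, Finset.mem_filter, mem_box]
          refine ⟨⟨hlen, fun q hq => ?_⟩, hadm⟩
          obtain ⟨h5, h6⟩ := adm_entries l _ (1 / ((j : ℝ) + 4)) (by positivity) hw4 hadm q hq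
          rw [one_div_one_div] at h6
          have h7 : q < j + 4 := by exact_mod_cast h6
          exact ⟨h5, by omega⟩
        have hadm := hadm12 _ hwpos hw3
        have hMh : ordCompl[2] L₀ ∣ h :=
          Nat.ordCompl_dvd_ordCompl_of_dvd (Dvd.intro _ hM.symm) 2
        have hcmp := (hit_compare A L₀ h hL₀ hAL₀ hMh).2 hodd heven
          ⟨l₁, hmemA l₁ hl₁ hadm.1, l₂, hmemA l₂ hl₂ hadm.2, hodd12⟩
        have hc0 := count_mul_of_periodic (Hit A 0) L₀ M (hit_periodic A L₀ 0 hAL₀)
        have hch := count_mul_of_periodic (Hit A h) L₀ M (hit_periodic A L₀ h hAL₀)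
        rw [mul_comm M L₀, ← hM] at hc0 hch
        rw [hc0] at h1
        rw [hch] at h2
        have h8 : a w + M ≤ b w := by
          calc a w + M ≤ M * Nat.count (Hit A 0) L₀ + M := by
                exact Nat.add_le_add_right h1 M
            _ = M * (Nat.count (Hit A 0) L₀ + 1) := by ring
            _ ≤ M * Nat.count (Hit A h) L₀ := Nat.mul_le_mul_left M hcmp
            _ ≤ b w := h2
        have h9 : (a w : ℝ) + M ≤ b w := by exact_mod_cast h8
        linarith
      · rw [if_neg hsp]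
        have hcmp := (hit_compare A L h hL hAL (dvd_refl _)).1
        have h8 : a w ≤ b w := h1.trans (hcmp.trans h2)
        have h9 : (a w : ℝ) ≤ b w := by exact_mod_cast h8
        linarith
    · have hnsp : w ∉ Sp := fun hcon => hsm (hspsmall hcon)
      have hsm' : w ∈ Small := Finset.mem_filter.2 ⟨hw, by push Not at hsm; exact hsm⟩
      rw [if_neg hnsp, if_pos hsm']
      linarith
  have htotal := Finset.sum_le_sum hpoint
  rw [Finset.sum_sub_distrib, Finset.sum_sub_distrib, Finset.sum_sub_distrib,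
    Finset.sum_ite_mem, Finset.sum_ite_mem, Finset.sum_ite_mem,
    Finset.inter_eq_right.2 hSpsub, Finset.inter_eq_right.2 (Finset.filter_subset _ _),
    Finset.inter_eq_right.2 (Finset.filter_subset _ _), Finset.sum_const, Finset.sum_const,
    Finset.sum_const, nsmul_eq_mul, nsmul_eq_mul, nsmul_eq_mul, ← hsuma] at htotal
  have hB' : (Bad.card : ℝ) ≤ C := by exact_mod_cast hBadcard
  have e1 : (M : ℝ) * (δ * N - 1) ≤ Sp.card * M := by
    rw [mul_comm]; exact mul_le_mul_of_nonneg_right hSpcard hMr.le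
  have e2 : (Bad.card : ℝ) * ((L : ℝ) + M) ≤ ((L : ℝ) + M) * C := by
    rw [mul_comm]; exact mul_le_mul_of_nonneg_left hB' (by positivity)
  have e3 : (Small.card : ℝ) * L ≤ (ε * N + 1) * L := mul_le_mul_of_nonneg_right hSmallcard hLr.le
  have e4 : ε * N * L ≤ (M : ℝ) * δ / 2 * N := by
    have h1 : ε * L ≤ (M : ℝ) * δ / 2 := by
      calc ε * L ≤ δ / (2 * L₀) * L := mul_le_mul_of_nonneg_right hε1 hLr.le
        _ = (L : ℝ) / L₀ * δ / 2 := by field_simp
        _ = (M : ℝ) * δ / 2 := by rw [hLM]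
    nlinarith
  have e5 : η * N = (M : ℝ) * δ / 4 * N := by rw [hηdef]
  have e6 : K = (M : ℝ) + ((L : ℝ) + M) * C + L := hKdef
  linarith


theorem card_S_le (n j : ℕ) : (S n j).card ≤ n := by
  rcases Nat.eq_zero_or_pos n with rfl | hn
  · have h0 : ∀ i, S 0 i ⊆ {0} ∧ (S 0 i).erase 0 = ∅ := by
      intro i
      induction i with
      | zero => simp [S]
      | succ i ih => simp [S, ih.2]
    have h1 : S 0 j = ∅ := by
      cases j with
      | zero => simp [S]
      | succ i => simp [S, (h0 i).2]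
    simp [h1]
  · have h1 : S n j ⊆ Finset.range n := fun r hr => Finset.mem_range.2 (S_lt n j hn r hr)
    have h2 := Finset.card_le_card h1
    rwa [Finset.card_range] at h2

theorem no_limit (j : ℕ) (hj : 2 ≤ j) (ℓ : ℝ) :
    ¬ Tendsto (fun n : ℕ => ((S n j).card : ℝ) / n) atTop (nhds ℓ) := by
  intro hlim
  obtain ⟨L, h, hL, η, hη, N₀, hgain⟩ := gain j hj
  have hLr : (0 : ℝ) < L := by exact_mod_cast hL
  have t1 : Tendsto (fun N : ℕ => L * N) atTop atTop :=
    tendsto_id.const_mul_atTop' hL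
  have t2 : Tendsto (fun N : ℕ => L * N + h) atTop atTop :=
    tendsto_atTop_mono (fun N => Nat.le_add_right _ _) t1
  have u1 := hlim.comp t1
  have u2 := hlim.comp t2
  have u3 : Tendsto (fun N : ℕ => (((L * N + h : ℕ) : ℝ)) / ((L * N : ℕ) : ℝ)) atTop (nhds 1) := by
    have h1 : Tendsto (fun N : ℕ => 1 + (h : ℝ) / L * (1 / (N : ℝ))) atTop
        (nhds (1 + (h : ℝ) / L * 0)) :=
      tendsto_const_nhds.add (tendsto_const_nhds.mul tendsto_one_div_atTop_nhds_zero_nat)
    rw [mul_zero, add_zero] at h1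
    refine h1.congr' ?_
    filter_upwards [eventually_gt_atTop 0] with N hN
    have hNr : (0 : ℝ) < N := by exact_mod_cast hN
    push_cast
    field_simp
  have u4 := (u2.mul u3).sub u1
  rw [mul_one, sub_self] at u4
  have h5 : ∀ᶠ N : ℕ in atTop, η / L ≤
      ((fun n : ℕ => ((S n j).card : ℝ) / n) ∘ fun N => L * N + h) N *
      (((L * N + h : ℕ) : ℝ) / ((L * N : ℕ) : ℝ)) -
      ((fun n : ℕ => ((S n j).card : ℝ) / n) ∘ fun N => L * N) N := by
    filter_upwards [eventually_ge_atTop N₀, eventually_gt_atTop 0] with N hN hN0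
    have hg := hgain N hN
    have hNr : (0 : ℝ) < N := by exact_mod_cast hN0
    have hn' : (0 : ℝ) < ((L * N + h : ℕ) : ℝ) := by
      have : 0 < L * N + h := by positivity
      exact_mod_cast this
    have hn : (0 : ℝ) < ((L * N : ℕ) : ℝ) := by
      have : 0 < L * N := by positivity
      exact_mod_cast this
    simp only [Function.comp]
    rw [div_mul_div_cancel₀ hn'.ne', ← sub_div, div_le_div_iff₀ hLr hn]
    push_cast
    nlinarith
  have h6 := ge_of_tendsto u4 h5
  have h7 : 0 < η / L := div_pos hη hLr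
  linarith

/-- **Answer to Q1.** For every `j ≥ 2` the sequence `s_j(n)/n`, `s_j(n) = |S_j(n)|`, does not
converge; more precisely its lower limit is strictly smaller than its upper limit. -/
theorem result : ∀ j : ℕ, 2 ≤ j →
    (¬ ∃ ℓ : ℝ, Tendsto (fun n : ℕ => ((S n j).card : ℝ) / n) atTop (nhds ℓ)) ∧
    liminf (fun n : ℕ => ((S n j).card : ℝ) / n) atTop <
      limsup (fun n : ℕ => ((S n j).card : ℝ) / n) atTop := by
  intro j hj
  refine ⟨fun ⟨ℓ, hℓ⟩ => no_limit j hj ℓ hℓ, ?_⟩
  have hb1 : ∀ n : ℕ, ((S n j).card : ℝ) / n ≤ 1 := by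
    intro n
    rcases Nat.eq_zero_or_pos n with rfl | hn
    · simp
    · rw [div_le_one (by exact_mod_cast hn)]
      exact_mod_cast card_S_le n j
  have hb0 : ∀ n : ℕ, 0 ≤ ((S n j).card : ℝ) / n := fun n => by positivity
  have hle : IsBoundedUnder (· ≤ ·) atTop (fun n : ℕ => ((S n j).card : ℝ) / n) :=
    isBoundedUnder_of ⟨1, hb1⟩
  have hge : IsBoundedUnder (· ≥ ·) atTop (fun n : ℕ => ((S n j).card : ℝ) / n) :=
    isBoundedUnder_of ⟨0, hb0⟩
  refine lt_of_le_of_ne (liminf_le_limsup hle hge) ?_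
  intro heq
  exact no_limit j hj _ (tendsto_of_liminf_eq_limsup heq rfl hle hge)

end Pool.Agent.Results.MP_376bf0_nt.NonConvergence
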